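import Mathlib

namespace Pool.Agent.Results.MP_24e13c_co.ChordalIff

open Classical in
/-- The closed neighbourhood `N[v]`. -/
noncomputable def closedNbhd {V : Type*} [Fintype V] (G : SimpleGraph V) (v : V) : Finset V :=
  Finset.univ.filter (fun u => u = v ∨ G.Adj v u)

/-- `G` is chordal: it has no induced cycle of length at least four. -/
def IsChordal {V : Type*} (G : SimpleGraph V) : Prop :=
  ∀ n : ℕ, 4 ≤ n → IsEmpty (SimpleGraph.cycleGraph n ↪g G)

/-- Real dominating functions. -/
def IsRealDominating {V : Type*} [Fintype V] (G : SimpleGraph V) (f : V → ℝ) : Prop :=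
  ∀ v, 1 ≤ ∑ u ∈ closedNbhd G v, f u

/-- Nonnegative efficient real dominating functions. -/
def IsNERD {V : Type*} [Fintype V] (G : SimpleGraph V) (f : V → ℝ) : Prop :=
  (∀ v, 0 ≤ f v) ∧ ∀ v, ∑ u ∈ closedNbhd G v, f u = 1

/-- The real domination number: the infimum, in the extended reals, of the weights of all real
dominating functions. -/
noncomputable def realDominationNumber {V : Type*} [Fintype V] (G : SimpleGraph V) : EReal :=
  sInf {r : EReal | ∃ f : V → ℝ, IsRealDominating G f ∧ r = ((∑ v, f v : ℝ) : EReal)}

/-- Dominating sets. -/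
def IsDominatingSet {V : Type*} [Fintype V] (G : SimpleGraph V) (D : Finset V) : Prop :=
  ∀ v, ∃ d ∈ D, d ∈ closedNbhd G v

/-- The domination number. -/
noncomputable def dominationNumber {V : Type*} [Fintype V] (G : SimpleGraph V) : ℕ :=
  sInf {n : ℕ | ∃ D : Finset V, IsDominatingSet G D ∧ D.card = n}

theorem mem_closedNbhd {V : Type*} [Fintype V] {G : SimpleGraph V} {u v : V} :
    u ∈ closedNbhd G v ↔ u = v ∨ G.Adj v u := by
  classical
  simp [closedNbhd]

/-! ### Simplicial vertices -/

/-- The graph `G` restricted to the vertices in `M`, all others isolated. -/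
def restr {V : Type*} (G : SimpleGraph V) (M : Set V) : SimpleGraph V where
  Adj a b := G.Adj a b ∧ a ∈ M ∧ b ∈ M
  symm := ⟨fun _ _ h => ⟨h.1.symm, h.2.2, h.2.1⟩⟩
  loopless := ⟨fun _ h => G.irrefl h.1⟩

theorem mem_of_reachable {V : Type*} {G : SimpleGraph V} {M : Set V} {u v : V} (hu : u ∈ M)
    (h : (restr G M).Reachable u v) : v ∈ M := by
  obtain ⟨p⟩ := h
  induction p with
  | nil => exact hu
  | cons h p ih => exact ih h.2.2

/-- The key consequence of chordality. -/
theorem adj_of_reachable {V : Type*} {G : SimpleGraph V} (hG : IsChordal G) {M : Set V} {x : V}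
    (hM : ∀ m ∈ M, m ≠ x ∧ ¬ G.Adj x m) {y z c₁ c₂ : V} (hyz : y ≠ z) (hxy : G.Adj x y)
    (hxz : G.Adj x z) (h1 : c₁ ∈ M) (h2 : c₂ ∈ M) (hy : G.Adj y c₁) (hz : G.Adj z c₂)
    (hr : (restr G M).Reachable c₁ c₂) : G.Adj y z := by
  by_contra hnadj
  set M' : Set V := M ∪ {y, z} with hM'
  set H := restr G M' with hH
  have hle : restr G M ≤ H := by
    intro a b hab
    exact ⟨hab.1, Or.inl hab.2.1, Or.inl hab.2.2⟩
  have hyM : y ∈ M' := Or.inr (by simp)
  have hzM : z ∈ M' := Or.inr (by simp)
  have hreach : H.Reachable y z := by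
    have e1 : H.Adj y c₁ := ⟨hy, hyM, Or.inl h1⟩
    have e2 : H.Adj c₂ z := ⟨hz.symm, Or.inl h2, hzM⟩
    exact (e1.reachable.trans (hr.mono hle)).trans e2.reachable
  obtain ⟨p, hp⟩ := hreach.exists_walk_length_eq_dist
  set k := H.dist y z with hk
  have hd : ∀ i, i ≤ k → H.dist y (p.getVert i) = i := by
    intro i hi
    have a1 : H.dist y (p.getVert i) ≤ i := by
      have := SimpleGraph.dist_le (p.take i)
      rw [SimpleGraph.Walk.take_length] at this
      omega
    have a2 : H.dist (p.getVert i) z ≤ k - i := by
      have := SimpleGraph.dist_le (p.drop i)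
      rw [SimpleGraph.Walk.drop_length] at this
      omega
    have a3 : H.dist y z ≤ H.dist y (p.getVert i) + H.dist (p.getVert i) z := by
      have b1 : H.Reachable y (p.getVert i) := ⟨p.take i⟩
      have b2 : H.Reachable (p.getVert i) z := ⟨p.drop i⟩
      obtain ⟨q1, hq1⟩ := b1.exists_walk_length_eq_dist
      obtain ⟨q2, hq2⟩ := b2.exists_walk_length_eq_dist
      have := SimpleGraph.dist_le (q1.append q2)
      rw [SimpleGraph.Walk.length_append] at this
      omega
    omega
  have hk2 : 2 ≤ k := by
    by_contra hcon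
    have h01 : k = 0 ∨ k = 1 := by omega
    rcases h01 with h0 | h0
    · rw [hk, hreach.dist_eq_zero_iff] at h0
      exact hyz h0
    · rw [hk, SimpleGraph.dist_eq_one_iff_adj] at h0
      exact hnadj h0.1
  have hp0 : p.getVert 0 = y := p.getVert_zero
  have hpk : p.getVert k = z := by rw [← hp]; exact p.getVert_length
  have hmemM' : ∀ i, p.getVert i ∈ M' := fun i => mem_of_reachable hyM ⟨p.take i⟩
  have hinj : ∀ i j, i ≤ k → j ≤ k → p.getVert i = p.getVert j → i = j := by
    intro i j hi hj h
    rw [← hd i hi, ← hd j hj, h]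
  have hmemM : ∀ i, 0 < i → i < k → p.getVert i ∈ M := by
    intro i h0 h1
    rcases hmemM' i with h | h
    · exact h
    · rcases h with h | h
      · have := hinj i 0 h1.le (by omega) (h.trans hp0.symm)
        omega
      · rw [Set.mem_singleton_iff] at h
        have := hinj i k h1.le le_rfl (h.trans hpk.symm)
        omega
  have hadj : ∀ i, i < k → G.Adj (p.getVert i) (p.getVert (i + 1)) := by
    intro i hi
    exact (p.adj_getVert_succ (by omega)).1
  have hadj2 : ∀ i j, i ≤ k → j ≤ k → G.Adj (p.getVert i) (p.getVert j) → i < j → j = i + 1 := by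
    intro i j hi hj h hij
    have e : H.Adj (p.getVert i) (p.getVert j) := ⟨h, hmemM' i, hmemM' j⟩
    have b1 : H.Reachable y (p.getVert i) := ⟨p.take i⟩
    obtain ⟨q1, hq1⟩ := b1.exists_walk_length_eq_dist
    have := SimpleGraph.dist_le (q1.append (SimpleGraph.Walk.cons e SimpleGraph.Walk.nil))
    rw [SimpleGraph.Walk.length_append, hq1, hd i hi, hd j hj] at this
    simp at this
    omega
  have hne : ∀ i, p.getVert i ≠ x := by
    intro i h
    rcases hmemM' i with h' | h'
    · exact (hM _ h').1 h
    · rcases h' with h' | h'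
      · rw [h'] at h; exact hxy.ne h.symm
      · rw [Set.mem_singleton_iff] at h'
        rw [h'] at h; exact hxz.ne h.symm
  have hxadj : ∀ i, i ≤ k → (G.Adj x (p.getVert i) ↔ i = 0 ∨ i = k) := by
    intro i hi
    constructor
    · intro h
      by_contra hcon
      push Not at hcon
      exact (hM _ (hmemM i (by omega) (by omega))).2 h
    · rintro (rfl | rfl)
      · rw [hp0]; exact hxy
      · rw [hpk]; exact hxz
  -- the induced cycle
  let F : Fin (k + 2) → V := fun i => if i.val = 0 then x else p.getVert (i.val - 1)
  have hFinj : Function.Injective F := by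
    intro i j hij
    simp only [F] at hij
    split_ifs at hij with hi hj hj
    · exact Fin.ext (by omega)
    · exact absurd hij.symm (hne _)
    · exact absurd hij (hne _)
    · have := hinj _ _ (by omega) (by omega) hij
      exact Fin.ext (by omega)
  have hFadj : ∀ i j : Fin (k + 2), i.val < j.val →
      (G.Adj (F i) (F j) ↔ (j.val = i.val + 1 ∨ (i.val = 0 ∧ j.val = k + 1))) := by
    intro i j hij
    have hj0 : j.val ≠ 0 := by omega
    have hjk := j.2
    have hik := i.2
    by_cases hi0 : i.val = 0
    · simp only [F, hi0, if_true, hj0, if_false, true_and, zero_add]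
      have hb : j.val - 1 ≤ k := by omega
      rw [hxadj _ hb]
      omega
    · simp only [F, hi0, if_false, hj0, false_and, or_false]
      constructor
      · intro h
        have hb1 : i.val - 1 ≤ k := by omega
        have hb2 : j.val - 1 ≤ k := by omega
        have := hadj2 _ _ hb1 hb2 h (by omega)
        omega
      · intro h
        have h3 : j.val - 1 = (i.val - 1) + 1 := by omega
        rw [h3]
        exact hadj _ (by omega)
  have hcyc : ∀ i j : Fin (k + 2), i.val < j.val →
      ((SimpleGraph.cycleGraph (k + 2)).Adj i j ↔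
        (j.val = i.val + 1 ∨ (i.val = 0 ∧ j.val = k + 1))) := by
    intro i j hij
    rw [SimpleGraph.cycleGraph_adj']
    have e1 : (j - i).val = j.val - i.val := Fin.sub_val_of_le (by exact hij.le)
    have e2 : (i - j).val = k + 2 + i.val - j.val := by
      rw [Fin.sub_def]
      simp only
      rw [Nat.mod_eq_of_lt (by omega)]
      omega
    rw [e1, e2]
    omega
  have emb : SimpleGraph.cycleGraph (k + 2) ↪g G :=
    { toFun := F
      inj' := hFinj
      map_rel_iff' := by
        intro i j
        change G.Adj (F i) (F j) ↔ _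
        rcases lt_trichotomy i.val j.val with h | h | h
        · rw [hFadj i j h, hcyc i j h]
        · have : i = j := Fin.ext h
          subst this
          simp
        · rw [G.adj_comm, SimpleGraph.adj_comm _ i j, hFadj j i h, hcyc j i h] }
  exact (hG (k + 2) (by omega)).false emb

/-- `v` is simplicial in the subgraph induced on `A`. -/
def Simpl {V : Type*} (G : SimpleGraph V) (A : Finset V) (v : V) : Prop :=
  ∀ a ∈ A, ∀ b ∈ A, G.Adj v a → G.Adj v b → a ≠ b → G.Adj a b

theorem dirac {V : Type*} {G : SimpleGraph V} (hG : IsChordal G) (n : ℕ) :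
    ∀ A : Finset V, A.card = n → ∀ x ∈ A, (∃ u ∈ A, u ≠ x ∧ ¬ G.Adj x u) →
      ∃ v ∈ A, v ≠ x ∧ ¬ G.Adj x v ∧ Simpl G A v := by
  classical
  induction n using Nat.strong_induction_on with
  | _ n ih =>
    have ih2 : ∀ B : Finset V, B.card < n → B.Nonempty → ∃ v ∈ B, Simpl G B v := by
      intro B hB hne
      by_cases h : ∃ x ∈ B, ∃ u ∈ B, u ≠ x ∧ ¬ G.Adj x u
      · obtain ⟨x, hx, hu⟩ := h
        obtain ⟨v, hv, -, -, hs⟩ := ih _ hB B rfl x hx hu
        exact ⟨v, hv, hs⟩
      · push Not at h
        obtain ⟨v, hv⟩ := hne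
        exact ⟨v, hv, fun a ha b hb _ _ hab => h a ha b hb hab.symm⟩
    intro A hA x hx hu
    obtain ⟨u, huA, hux, hxu⟩ := hu
    set M : Set V := {a | a ∈ A ∧ a ≠ x ∧ ¬ G.Adj x a} with hM
    have huM : u ∈ M := ⟨huA, hux, hxu⟩
    set C : Finset V := A.filter (fun a => (restr G M).Reachable u a) with hC
    set NC : Finset V := A.filter (fun y => G.Adj x y ∧ ∃ c ∈ C, G.Adj y c) with hNC
    have hCM : ∀ c ∈ C, c ∈ M := by
      intro c hc
      exact mem_of_reachable huM (Finset.mem_filter.mp hc).2
    have huC : u ∈ C := Finset.mem_filter.mpr ⟨huA, SimpleGraph.Reachable.refl _⟩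
    have hNCclique : ∀ y ∈ NC, ∀ z ∈ NC, y ≠ z → G.Adj y z := by
      intro y hy z hz hyz
      obtain ⟨-, hxy, c₁, hc₁, hyc⟩ := Finset.mem_filter.mp hy
      obtain ⟨-, hxz, c₂, hc₂, hzc⟩ := Finset.mem_filter.mp hz
      refine adj_of_reachable hG (M := M) (x := x) (fun m hm => hm.2) hyz hxy hxz (hCM _ hc₁)
        (hCM _ hc₂) hyc hzc ?_
      exact ((Finset.mem_filter.mp hc₁).2.symm).trans (Finset.mem_filter.mp hc₂).2
    have hnbr : ∀ v ∈ C, ∀ a ∈ A, G.Adj v a → a ∈ C ∨ a ∈ NC := by
      intro v hv a ha hva
      have hvM := hCM v hv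
      by_cases hxa : G.Adj x a
      · exact Or.inr (Finset.mem_filter.mpr ⟨ha, hxa, v, hv, hva.symm⟩)
      · left
        have hax : a ≠ x := by
          rintro rfl
          exact hvM.2.2 hva.symm
        have haM : a ∈ M := ⟨ha, hax, hxa⟩
        refine Finset.mem_filter.mpr ⟨ha, (Finset.mem_filter.mp hv).2.trans ?_⟩
        exact SimpleGraph.Adj.reachable (show (restr G M).Adj v a from ⟨hva, hvM, haM⟩)
    set B := C ∪ NC with hB
    have hxC : x ∉ C := fun h => (hCM x h).2.1 rfl
    have hxNC : x ∉ NC := fun h => G.irrefl (Finset.mem_filter.mp h).2.1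
    have hBA : B ⊆ A := by
      intro a ha
      rcases Finset.mem_union.mp ha with h | h
      · exact (Finset.mem_filter.mp h).1
      · exact (Finset.mem_filter.mp h).1
    have hBcard : B.card < n := by
      rw [← hA]
      apply Finset.card_lt_card
      refine ⟨hBA, fun h => ?_⟩
      rcases Finset.mem_union.mp (h hx) with h | h
      · exact hxC h
      · exact hxNC h
    have hCcard : C.card < n := lt_of_le_of_lt (Finset.card_le_card Finset.subset_union_left) hBcard
    have hfin : ∀ v ∈ C, Simpl G B v → ∃ v ∈ A, v ≠ x ∧ ¬ G.Adj x v ∧ Simpl G A v := by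
      intro v hv hs
      have hvM := hCM v hv
      refine ⟨v, hvM.1, hvM.2.1, hvM.2.2, ?_⟩
      intro a ha b hb hva hvb hab
      exact hs a (Finset.mem_union.mpr (hnbr v hv a ha hva)) b
        (Finset.mem_union.mpr (hnbr v hv b hb hvb)) hva hvb hab
    by_cases hcase : ∃ y ∈ NC, ∃ w ∈ B, w ≠ y ∧ ¬ G.Adj y w
    · obtain ⟨y, hy, hw⟩ := hcase
      obtain ⟨v, hv, hvy, hyv, hs⟩ := ih _ hBcard B rfl y (Finset.mem_union_right _ hy) hw
      rcases Finset.mem_union.mp hv with h | h
      · exact hfin v h hs
      · exact absurd (hNCclique y hy v h hvy.symm) hyv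
    · push Not at hcase
      obtain ⟨v, hv, hs⟩ := ih2 C hCcard ⟨u, huC⟩
      refine hfin v hv ?_
      intro a ha b hb hva hvb hab
      rcases Finset.mem_union.mp ha with h | h
      · rcases Finset.mem_union.mp hb with h' | h'
        · exact hs a h b h' hva hvb hab
        · exact (hcase b h' a ha hab).symm
      · exact hcase a h b hb hab.symm

theorem exists_simplicial {V : Type*} {G : SimpleGraph V} (hG : IsChordal G) (B : Finset V)
    (hne : B.Nonempty) : ∃ v ∈ B, Simpl G B v := by
  by_cases h : ∃ x ∈ B, ∃ u ∈ B, u ≠ x ∧ ¬ G.Adj x u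
  · obtain ⟨x, hx, hu⟩ := h
    obtain ⟨v, hv, -, -, hs⟩ := dirac hG _ B rfl x hx hu
    exact ⟨v, hv, hs⟩
  · push Not at h
    obtain ⟨v, hv⟩ := hne
    exact ⟨v, hv, fun a ha b hb _ _ hab => h a ha b hb hab.symm⟩

/-! ### The main induction -/

open Classical in
theorem exists_dominating {V : Type*} [Fintype V] {G : SimpleGraph V} (hG : IsChordal G) (n : ℕ) :
    ∀ (A : Finset V) (f : V → ℝ), A.card = n → (∀ v ∈ A, 0 ≤ f v) →
      (∀ v ∈ A, 1 ≤ ∑ u ∈ closedNbhd G v with u ∈ A, f u) →
      (∀ v ∈ A, 0 < f v → ∑ u ∈ closedNbhd G v with u ∈ A, f u = 1) →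
      ∃ D ⊆ A, (∀ d ∈ D, 0 < f d) ∧ (∀ v ∈ A, ∃ d ∈ D, d ∈ closedNbhd G v) ∧
        (D.card : ℝ) = ∑ v ∈ A, f v := by
  induction n using Nat.strong_induction_on with
  | _ n ih =>
    intro A f hA hf hge heq
    rcases A.eq_empty_or_nonempty with rfl | hne
    · exact ⟨∅, by simp, by simp, by simp, by simp⟩
    obtain ⟨v, hv, hs⟩ := exists_simplicial hG A hne
    -- the closed neighbourhood of `v` in `A` is a clique
    have hclique : ∀ a ∈ A, ∀ b ∈ A, a ∈ closedNbhd G v → b ∈ closedNbhd G v →
        a ∈ closedNbhd G b := by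
      intro a ha b hb hva hvb
      rw [mem_closedNbhd] at *
      by_cases hab : a = b
      · exact Or.inl hab
      · right
        rcases hva with rfl | hva
        · rcases hvb with rfl | hvb
          · exact absurd rfl hab
          · exact hvb.symm
        · rcases hvb with rfl | hvb
          · exact hva
          · exact (hs a ha b hb hva hvb hab).symm
    have hvv : v ∈ closedNbhd G v := mem_closedNbhd.mpr (Or.inl rfl)
    have hself : ∀ u, u ∈ closedNbhd G u := fun u => mem_closedNbhd.mpr (Or.inl rfl)
    have hsymm : ∀ a b, a ∈ closedNbhd G b → b ∈ closedNbhd G a := by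
      intro a b h
      rw [mem_closedNbhd] at *
      rcases h with rfl | h
      · exact Or.inl rfl
      · exact Or.inr h.symm
    -- for `u` in the support and adjacent to `v`, the support neighbours of `u` are in `N[v]`
    have hsub : ∀ u ∈ A, u ∈ closedNbhd G v → 0 < f u → ∀ w ∈ A, w ∈ closedNbhd G u → 0 < f w →
        w ∈ closedNbhd G v := by
      intro u hu huv hfu w hw hwu hfw
      by_contra hcon
      have h1 := hge v hv
      have h2 := heq u hu hfu
      have h3 : insert w ((closedNbhd G v).filter (· ∈ A)) ⊆ (closedNbhd G u).filter (· ∈ A) := by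
        intro a ha
        rcases Finset.mem_insert.mp ha with rfl | ha
        · exact Finset.mem_filter.mpr ⟨hwu, hw⟩
        · obtain ⟨h4, h5⟩ := Finset.mem_filter.mp ha
          exact Finset.mem_filter.mpr ⟨hclique a h5 u hu h4 huv, h5⟩
      have h4 := Finset.sum_le_sum_of_subset_of_nonneg h3 (f := f)
        (fun i hi _ => hf i (Finset.mem_filter.mp hi).2)
      rw [Finset.sum_insert (fun h => hcon (Finset.mem_filter.mp h).1)] at h4
      linarith
    -- deleting `v`
    have hcard : (A.erase v).card < n := by
      rw [← hA]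
      exact Finset.card_erase_lt_of_mem hv
    by_cases hfv : f v = 0
    · -- case 1
      have hsum : ∀ u, ∑ x ∈ closedNbhd G u with x ∈ A.erase v, f x
          = ∑ x ∈ closedNbhd G u with x ∈ A, f x := by
        intro u
        apply Finset.sum_subset
        · intro x hx
          rw [Finset.mem_filter, Finset.mem_erase] at hx
          exact Finset.mem_filter.mpr ⟨hx.1, hx.2.2⟩
        · intro x hx hx'
          rw [Finset.mem_filter, Finset.mem_erase] at hx'
          rw [Finset.mem_filter] at hx
          have : x = v := by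
            by_contra h
            exact hx' ⟨hx.1, h, hx.2⟩
          rw [this, hfv]
      obtain ⟨D, hDA, hDpos, hDdom, hDcard⟩ := ih _ hcard (A.erase v) f rfl
        (fun u hu => hf u (Finset.mem_of_mem_erase hu))
        (fun u hu => by rw [hsum]; exact hge u (Finset.mem_of_mem_erase hu))
        (fun u hu hfu => by rw [hsum]; exact heq u (Finset.mem_of_mem_erase hu) hfu)
      refine ⟨D, hDA.trans (Finset.erase_subset _ _), hDpos, ?_, ?_⟩
      · intro w hw
        by_cases hwv : w = v
        · subst hwv
          -- choose a support neighbour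
          have h1 := hge w hw
          obtain ⟨u, hu, hfu⟩ : ∃ u ∈ (closedNbhd G w).filter (· ∈ A), 0 < f u := by
            by_contra hcon
            push Not at hcon
            have := Finset.sum_nonpos hcon
            linarith
          obtain ⟨huw, huA⟩ := Finset.mem_filter.mp hu
          have hune : u ≠ w := by
            rintro rfl
            linarith
          obtain ⟨d, hd, hdu⟩ := hDdom u (Finset.mem_erase.mpr ⟨hune, huA⟩)
          exact ⟨d, hd, hsub u huA huw hfu d (Finset.mem_of_mem_erase (hDA hd)) hdu (hDpos d hd)⟩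
        · exact hDdom w (Finset.mem_erase.mpr ⟨hwv, hw⟩)
      · rw [hDcard, ← Finset.add_sum_erase A f hv, hfv, zero_add]
    · have hfv' : 0 < f v := lt_of_le_of_ne (hf v hv) (Ne.symm hfv)
      by_cases hQ : ∃ u ∈ A, u ≠ v ∧ u ∈ closedNbhd G v ∧ 0 < f u
      · -- case 2b : move the weight of `v` to `u`
        obtain ⟨u, hu, huv, huN, hfu⟩ := hQ
        set f' : V → ℝ := fun x => if x = u then f u + f v else f x with hf'
        have hf'pos : ∀ x, 0 < f' x → x ∈ A → 0 < f x := by
          intro x hx _
          simp only [hf'] at hx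
          split_ifs at hx with h
          · rw [h]; exact hfu
          · exact hx
        -- sums
        have hsum1 : ∀ x ∈ A.erase v, u ∈ closedNbhd G x → v ∈ closedNbhd G x →
            ∑ y ∈ closedNbhd G x with y ∈ A.erase v, f' y
              = ∑ y ∈ closedNbhd G x with y ∈ A, f y := by
          intro x hx hux hvx
          have hset : (closedNbhd G x).filter (· ∈ A) =
              insert v ((closedNbhd G x).filter (· ∈ A.erase v)) := by
            ext y
            simp only [Finset.mem_filter, Finset.mem_insert, Finset.mem_erase]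
            constructor
            · rintro ⟨h1, h2⟩
              by_cases h : y = v
              · exact Or.inl h
              · exact Or.inr ⟨h1, h, h2⟩
            · rintro (rfl | ⟨h1, h2, h3⟩)
              · exact ⟨hvx, hv⟩
              · exact ⟨h1, h3⟩
          have hvn : v ∉ (closedNbhd G x).filter (· ∈ A.erase v) := by simp
          have hum : u ∈ (closedNbhd G x).filter (· ∈ A.erase v) := by
            rw [Finset.mem_filter, Finset.mem_erase]
            exact ⟨hux, huv, hu⟩
          rw [hset, Finset.sum_insert hvn, ← Finset.add_sum_erase _ f hum,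
            ← Finset.add_sum_erase _ f' hum]
          have h5 : ∑ y ∈ ((closedNbhd G x).filter (· ∈ A.erase v)).erase u, f' y
              = ∑ y ∈ ((closedNbhd G x).filter (· ∈ A.erase v)).erase u, f y := by
            apply Finset.sum_congr rfl
            intro y hy
            simp only [hf']
            rw [if_neg (Finset.ne_of_mem_erase hy)]
          rw [h5]
          simp only [hf', if_true]
          ring
        have hsum2 : ∀ x ∈ A.erase v, v ∉ closedNbhd G x →
            ∑ y ∈ closedNbhd G x with y ∈ A.erase v, f y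
              = ∑ y ∈ closedNbhd G x with y ∈ A, f y := by
          intro x hx hvx
          apply Finset.sum_congr _ (fun _ _ => rfl)
          ext y
          simp only [Finset.mem_filter, Finset.mem_erase]
          constructor
          · rintro ⟨h1, h2, h3⟩
            exact ⟨h1, h3⟩
          · rintro ⟨h1, h3⟩
            refine ⟨h1, ?_, h3⟩
            rintro rfl
            exact hvx h1
        have hle : ∀ x, f x ≤ f' x := by
          intro x
          simp only [hf']
          split_ifs with h
          · rw [h]; linarith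
          · exact le_rfl
        obtain ⟨D, hDA, hDpos, hDdom, hDcard⟩ := ih _ hcard (A.erase v) f' rfl
          (fun x hx => (hf x (Finset.mem_of_mem_erase hx)).trans (hle x))
          (fun x hx => by
            have hxA := Finset.mem_of_mem_erase hx
            by_cases hvx : v ∈ closedNbhd G x
            · have hux : u ∈ closedNbhd G x := hclique u hu x hxA huN (hsymm _ _ hvx)
              rw [hsum1 x hx hux hvx]
              exact hge x hxA
            · have h1 := hge x hxA
              rw [← hsum2 x hx hvx] at h1
              exact h1.trans (Finset.sum_le_sum (fun y _ => hle y)))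
          (fun x hx hfx => by
            have hxA := Finset.mem_of_mem_erase hx
            have hfx' := hf'pos x hfx hxA
            by_cases hvx : v ∈ closedNbhd G x
            · have hux : u ∈ closedNbhd G x := hclique u hu x hxA huN (hsymm _ _ hvx)
              rw [hsum1 x hx hux hvx]
              exact heq x hxA hfx'
            · have hux : u ∉ closedNbhd G x := by
                intro hux
                exact hvx (hsymm _ _ (hsub u hu huN hfu x hxA (hsymm _ _ hux) hfx'))
              have h6 : ∑ y ∈ closedNbhd G x with y ∈ A.erase v, f' y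
                  = ∑ y ∈ closedNbhd G x with y ∈ A.erase v, f y := by
                apply Finset.sum_congr rfl
                intro y hy
                simp only [hf']
                rw [if_neg]
                rintro rfl
                exact hux (Finset.mem_filter.mp hy).1
              rw [h6, hsum2 x hx hvx]
              exact heq x hxA hfx')
        have hDpos' : ∀ d ∈ D, 0 < f d := fun d hd =>
          hf'pos d (hDpos d hd) (Finset.mem_of_mem_erase (hDA hd))
        refine ⟨D, hDA.trans (Finset.erase_subset _ _), hDpos', ?_, ?_⟩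
        · intro w hw
          by_cases hwv : w = v
          · subst hwv
            obtain ⟨d, hd, hdu⟩ := hDdom u (Finset.mem_erase.mpr ⟨huv, hu⟩)
            exact ⟨d, hd, hsub u hu huN hfu d (Finset.mem_of_mem_erase (hDA hd)) hdu
              (hDpos' d hd)⟩
          · exact hDdom w (Finset.mem_erase.mpr ⟨hwv, hw⟩)
        · have hum : u ∈ A.erase v := Finset.mem_erase.mpr ⟨huv, hu⟩
          rw [hDcard, ← Finset.add_sum_erase A f hv, ← Finset.add_sum_erase _ f hum,
            ← Finset.add_sum_erase _ f' hum]
          have h5 : ∑ y ∈ (A.erase v).erase u, f' y = ∑ y ∈ (A.erase v).erase u, f y := by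
            apply Finset.sum_congr rfl
            intro y hy
            simp only [hf']
            rw [if_neg (Finset.ne_of_mem_erase hy)]
          rw [h5]
          simp only [hf', if_true]
          ring
      · -- case 2a : `v` is alone in its clique
        push Not at hQ
        have hzero : ∀ u ∈ A, u ≠ v → u ∈ closedNbhd G v → f u = 0 := fun u hu huv huN =>
          le_antisymm (hQ u hu huv huN) (hf u hu)
        have hfv1 : f v = 1 := by
          have h1 := heq v hv hfv'
          have hvm : v ∈ (closedNbhd G v).filter (· ∈ A) := Finset.mem_filter.mpr ⟨hvv, hv⟩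
          rw [← Finset.add_sum_erase _ f hvm] at h1
          have h2 : ∑ x ∈ ((closedNbhd G v).filter (· ∈ A)).erase v, f x = 0 := by
            apply Finset.sum_eq_zero
            intro x hx
            rw [Finset.mem_erase, Finset.mem_filter] at hx
            exact hzero x hx.2.2 hx.1 hx.2.1
          linarith
        set A' : Finset V := A.filter (fun x => x ∉ closedNbhd G v) with hA'
        have hA'A : A' ⊆ A := Finset.filter_subset _ _
        have hvA' : v ∉ A' := fun h => (Finset.mem_filter.mp h).2 hvv
        have hcard' : A'.card < n := by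
          rw [← hA]
          exact Finset.card_lt_card ⟨hA'A, fun h => hvA' (h hv)⟩
        have hsum : ∀ x ∈ A', ∑ y ∈ closedNbhd G x with y ∈ A', f y
            = ∑ y ∈ closedNbhd G x with y ∈ A, f y := by
          intro x hx
          apply Finset.sum_subset
          · intro y hy
            rw [Finset.mem_filter] at hy ⊢
            exact ⟨hy.1, hA'A hy.2⟩
          · intro y hy hy'
            rw [Finset.mem_filter] at hy hy'
            have hyN : y ∈ closedNbhd G v := by
              by_contra h
              exact hy' ⟨hy.1, Finset.mem_filter.mpr ⟨hy.2, h⟩⟩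
            have hyv : y ≠ v := by
              rintro rfl
              exact (Finset.mem_filter.mp hx).2 (hsymm _ _ hy.1)
            exact hzero y hy.2 hyv hyN
        obtain ⟨D, hDA, hDpos, hDdom, hDcard⟩ := ih _ hcard' A' f rfl
          (fun u hu => hf u (hA'A hu))
          (fun u hu => by rw [hsum u hu]; exact hge u (hA'A hu))
          (fun u hu hfu => by rw [hsum u hu]; exact heq u (hA'A hu) hfu)
        have hvD : v ∉ D := fun h => hvA' (hDA h)
        refine ⟨insert v D, ?_, ?_, ?_, ?_⟩
        · intro x hx
          rcases Finset.mem_insert.mp hx with rfl | h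
          · exact hv
          · exact hA'A (hDA h)
        · intro x hx
          rcases Finset.mem_insert.mp hx with rfl | h
          · exact hfv'
          · exact hDpos x h
        · intro w hw
          by_cases hwN : w ∈ closedNbhd G v
          · exact ⟨v, Finset.mem_insert_self _ _, hsymm _ _ hwN⟩
          · obtain ⟨d, hd, hdw⟩ := hDdom w (Finset.mem_filter.mpr ⟨hw, hwN⟩)
            exact ⟨d, Finset.mem_insert_of_mem hd, hdw⟩
        · rw [Finset.card_insert_of_notMem hvD, Nat.cast_add, hDcard, Nat.cast_one]
          have h7 : ∑ x ∈ A.filter (fun x => x ∈ closedNbhd G v), f x = 1 := by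
            have hvm : v ∈ A.filter (fun x => x ∈ closedNbhd G v) :=
              Finset.mem_filter.mpr ⟨hv, hvv⟩
            rw [← Finset.add_sum_erase _ f hvm, hfv1]
            have h2 : ∑ x ∈ (A.filter (fun x => x ∈ closedNbhd G v)).erase v, f x = 0 := by
              apply Finset.sum_eq_zero
              intro x hx
              rw [Finset.mem_erase, Finset.mem_filter] at hx
              exact hzero x hx.2.1 hx.1 hx.2.2
            rw [h2, add_zero]
          have h8 := Finset.sum_filter_add_sum_filter_not A (fun x => x ∈ closedNbhd G v) f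
          rw [h7] at h8
          rw [← h8, add_comm]

/-! ### The weight of a NERD-function -/

theorem sum_closedNbhd_comm {V : Type*} [Fintype V] (G : SimpleGraph V) (f g : V → ℝ) :
    ∑ v, f v * ∑ u ∈ closedNbhd G v, g u = ∑ u, g u * ∑ v ∈ closedNbhd G u, f v := by
  classical
  have h : ∀ (a b : V → ℝ), ∑ v, a v * ∑ u ∈ closedNbhd G v, b u
      = ∑ v, ∑ u, if u ∈ closedNbhd G v then a v * b u else 0 := by
    intro a b
    apply Finset.sum_congr rfl
    intro v _
    rw [Finset.mul_sum, Finset.sum_ite_mem, Finset.univ_inter]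
  rw [h, h, Finset.sum_comm]
  apply Finset.sum_congr rfl
  intro u _
  apply Finset.sum_congr rfl
  intro v _
  have : u ∈ closedNbhd G v ↔ v ∈ closedNbhd G u := by
    rw [mem_closedNbhd, mem_closedNbhd, G.adj_comm]
    exact or_congr eq_comm Iff.rfl
  simp only [this, mul_comm]

theorem weight_le {V : Type*} [Fintype V] {G : SimpleGraph V} {f g : V → ℝ} (hf : IsNERD G f)
    (hg : IsRealDominating G g) : ∑ v, f v ≤ ∑ v, g v := by
  have h := sum_closedNbhd_comm G f g
  have h1 : ∑ u, g u * ∑ v ∈ closedNbhd G u, f v = ∑ u, g u := by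
    apply Finset.sum_congr rfl
    intro u _
    rw [hf.2 u, mul_one]
  rw [h1] at h
  rw [← h]
  apply Finset.sum_le_sum
  intro v _
  have := mul_le_mul_of_nonneg_left (hg v) (hf.1 v)
  linarith

theorem realDominationNumber_eq {V : Type*} [Fintype V] {G : SimpleGraph V} {f : V → ℝ}
    (hf : IsNERD G f) : realDominationNumber G = ((∑ v, f v : ℝ) : EReal) := by
  apply le_antisymm
  · exact sInf_le ⟨f, fun v => (hf.2 v).ge, rfl⟩
  · apply le_sInf
    rintro r ⟨g, hg, rfl⟩
    exact EReal.coe_le_coe_iff.mpr (weight_le hf hg)

theorem indicator_dominating {V : Type*} [Fintype V] [DecidableEq V] {G : SimpleGraph V}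
    {D : Finset V} (hD : IsDominatingSet G D) :
    IsRealDominating G (fun v => if v ∈ D then (1 : ℝ) else 0) := by
  intro v
  obtain ⟨d, hd, hdv⟩ := hD v
  have := Finset.single_le_sum (f := fun v => if v ∈ D then (1 : ℝ) else 0)
    (s := closedNbhd G v) (fun i _ => by split_ifs <;> norm_num) hdv
  simpa [hd] using this

theorem dominationNumber_spec {V : Type*} [Fintype V] (G : SimpleGraph V) :
    ∃ D : Finset V, IsDominatingSet G D ∧ D.card = dominationNumber G :=
  Nat.sInf_mem (s := {n : ℕ | ∃ D : Finset V, IsDominatingSet G D ∧ D.card = n})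
    ⟨_, Finset.univ, fun v => ⟨v, Finset.mem_univ v, mem_closedNbhd.mpr (Or.inl rfl)⟩, rfl⟩

theorem mp_direction {V : Type*} [Fintype V] {G : SimpleGraph V} (hG : IsChordal G) {f : V → ℝ}
    (hf : IsNERD G f) : realDominationNumber G = ((dominationNumber G : ℝ) : EReal) := by
  classical
  rw [realDominationNumber_eq hf]
  congr 1
  apply le_antisymm
  · obtain ⟨D, hD, hcard⟩ := dominationNumber_spec G
    have := weight_le hf (indicator_dominating hD)
    rw [Finset.sum_ite_mem, Finset.univ_inter, Finset.sum_const, hcard, nsmul_eq_mul,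
      mul_one] at this
    exact this
  · obtain ⟨D, -, -, hdom, hcard⟩ := exists_dominating hG _ Finset.univ f rfl
      (fun v _ => hf.1 v) (fun v _ => by simpa using (hf.2 v).ge)
      (fun v _ _ => by simpa using hf.2 v)
    rw [← hcard]
    have hle : dominationNumber G ≤ D.card :=
      Nat.sInf_le ⟨D, fun v => hdom v (Finset.mem_univ v), rfl⟩
    exact_mod_cast hle

/-! ### The converse direction, valid for every graph -/

/-- The closed neighbourhood sums, as a linear map. -/
noncomputable def nbhdMap {V : Type*} [Fintype V] (G : SimpleGraph V) :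
    (V → ℝ) →ₗ[ℝ] (V → ℝ) where
  toFun f v := ∑ u ∈ closedNbhd G v, f u
  map_add' f g := by
    ext v
    simp [Finset.sum_add_distrib]
  map_smul' c f := by
    ext v
    simp [Finset.mul_sum]

/-- The cone of all vectors of closed neighbourhood sums of nonnegative functions is closed. -/
theorem isClosed_image {V : Type*} [Fintype V] (G : SimpleGraph V) :
    IsClosed ((nbhdMap G) '' {f : V → ℝ | ∀ v, 0 ≤ f v}) := by
  classical
  have hcont : Continuous (nbhdMap G) := (nbhdMap G).continuous_of_finiteDimensional
  rw [← isSeqClosed_iff_isClosed]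
  intro y b hy hb
  choose f hf0 hf using hy
  -- the functions are bounded
  have hbd : Bornology.IsBounded (Set.range y) := Metric.isBounded_range_of_tendsto y hb
  obtain ⟨R, hR⟩ := hbd.subset_closedBall 0
  have hmem : ∀ n, f n ∈ Set.Icc (0 : V → ℝ) (fun _ => R) := by
    intro n
    refine ⟨fun v => hf0 n v, fun v => ?_⟩
    have h1 : ‖y n‖ ≤ R := by
      have := hR ⟨n, rfl⟩
      simpa using this
    have h2 : y n v ≤ R := (le_abs_self _).trans ((norm_le_pi_norm (y n) v).trans h1)
    have h3 : f n v ≤ y n v := by
      rw [← hf n]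
      exact Finset.single_le_sum (f := f n) (fun i _ => hf0 n i)
        (mem_closedNbhd.mpr (Or.inl rfl))
    exact h3.trans h2
  obtain ⟨g, hg, φ, hφ, hlim⟩ := isCompact_Icc.tendsto_subseq hmem
  refine ⟨g, fun v => hg.1 v, ?_⟩
  have h4 : Filter.Tendsto (fun n => nbhdMap G (f (φ n))) Filter.atTop (nhds (nbhdMap G g)) :=
    (hcont.tendsto g).comp hlim
  have h5 : Filter.Tendsto (fun n => nbhdMap G (f (φ n))) Filter.atTop (nhds b) := by
    have := hb.comp hφ.tendsto_atTop
    refine this.congr (fun n => ?_)
    simp only [Function.comp]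
    exact (hf (φ n)).symm
  exact tendsto_nhds_unique h4 h5

theorem exists_nerd_or {V : Type*} [Fintype V] (G : SimpleGraph V) :
    (∃ f, IsNERD G f) ∨ ∃ g : V → ℝ, (∀ v, 0 ≤ ∑ u ∈ closedNbhd G v, g u) ∧ ∑ v, g v < 0 := by
  classical
  by_cases h : (fun _ => (1 : ℝ)) ∈ (nbhdMap G) '' {f : V → ℝ | ∀ v, 0 ≤ f v}
  · left
    obtain ⟨f, hf, hf1⟩ := h
    exact ⟨f, hf, fun v => congrFun hf1 v⟩
  · right
    have hconv : Convex ℝ ((nbhdMap G) '' {f : V → ℝ | ∀ v, 0 ≤ f v}) := by
      apply Convex.linear_image
      intro f hf g hg a b ha hb _ v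
      have := mul_nonneg ha (hf v)
      have := mul_nonneg hb (hg v)
      simp only [Pi.add_apply, Pi.smul_apply, smul_eq_mul]
      linarith
    obtain ⟨L, u, hL1, hL2⟩ := geometric_hahn_banach_point_closed hconv (isClosed_image G) h
    -- `L (1) < u < L y` for all `y` in the cone
    have hu0 : u < 0 := by
      have := hL2 0 ⟨0, fun v => le_rfl, map_zero _⟩
      simpa using this
    have hpos : ∀ f : V → ℝ, (∀ v, 0 ≤ f v) → 0 ≤ L (nbhdMap G f) := by
      intro f hf
      by_contra hcon
      push Not at hcon
      have hne : L (nbhdMap G f) ≠ 0 := hcon.ne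
      have h2 := hL2 (nbhdMap G ((u / L (nbhdMap G f)) • f))
        ⟨(u / L (nbhdMap G f)) • f, fun v => mul_nonneg
          (div_nonneg_of_nonpos hu0.le hcon.le) (hf v), rfl⟩
      rw [map_smul, map_smul, smul_eq_mul, div_mul_cancel₀ _ hne] at h2
      exact lt_irrefl _ h2
    let g : V → ℝ := fun v => L (Pi.single v 1)
    have hLg : ∀ y : V → ℝ, L y = ∑ v, y v * g v := by
      intro y
      have hy : y = ∑ v, y v • (Pi.single v (1 : ℝ) : V → ℝ) := by
        ext w
        simp [Finset.sum_apply, Pi.single_apply]
      conv_lhs => rw [hy]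
      rw [map_sum]
      apply Finset.sum_congr rfl
      intro v _
      rw [map_smul, smul_eq_mul]
    refine ⟨g, ?_, ?_⟩
    · intro v
      have h1 := hpos (Pi.single v 1) (fun w => by
        by_cases hw : w = v
        · subst hw; simp
        · simp [Pi.single_apply, hw])
      rw [hLg] at h1
      have h2 : ∑ w, (nbhdMap G (Pi.single v 1)) w * g w = ∑ u ∈ closedNbhd G v, g u := by
        have h3 := sum_closedNbhd_comm G g (Pi.single v (1 : ℝ))
        have h4 : ∑ w, (nbhdMap G (Pi.single v 1)) w * g w
            = ∑ w, g w * ∑ u ∈ closedNbhd G w, (Pi.single v (1 : ℝ) : V → ℝ) u := by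
          apply Finset.sum_congr rfl
          intro w _
          rw [mul_comm]
          rfl
        rw [h4, h3, Finset.sum_eq_single v]
        · simp
        · intro b _ hb
          simp [Pi.single_apply, hb]
        · simp
      rw [h2] at h1
      exact h1
    · have h1 : L (fun _ => (1 : ℝ)) < 0 := hL1.trans hu0
      rw [hLg] at h1
      simpa using h1

theorem mpr_direction {V : Type*} [Fintype V] {G : SimpleGraph V}
    (h : realDominationNumber G = ((dominationNumber G : ℝ) : EReal)) : ∃ f, IsNERD G f := by
  classical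
  rcases exists_nerd_or G with hf | ⟨g, hg0, hg1⟩
  · exact hf
  · exfalso
    obtain ⟨D, hD, hcard⟩ := dominationNumber_spec G
    set f₀ : V → ℝ := fun v => if v ∈ D then (1 : ℝ) else 0 with hf₀
    have hdom := indicator_dominating hD
    -- add a large multiple of `g`
    obtain ⟨N, hN⟩ := exists_nat_gt ((∑ v, f₀ v) / (-∑ v, g v))
    have hN' : (∑ v, f₀ v) < N * (-∑ v, g v) := by
      rwa [div_lt_iff₀ (by linarith)] at hN
    have hle : realDominationNumber G ≤ ((∑ v, (f₀ v + N * g v) : ℝ) : EReal) := by
      refine sInf_le ⟨fun v => f₀ v + N * g v, fun v => ?_, rfl⟩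
      rw [Finset.sum_add_distrib, ← Finset.mul_sum]
      have h1 := hdom v
      have h2 := mul_nonneg (Nat.cast_nonneg (α := ℝ) N) (hg0 v)
      linarith
    rw [h, EReal.coe_le_coe_iff, Finset.sum_add_distrib, ← Finset.mul_sum] at hle
    have := Nat.cast_nonneg (α := ℝ) (dominationNumber G)
    linarith

/-- For every finite chordal graph `G`, the real domination number equals the domination number if
and only if `G` has a nonnegative efficient real dominating function. -/
theorem result {V : Type*} [Fintype V] (G : SimpleGraph V) (hG : IsChordal G) :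
    realDominationNumber G = ((dominationNumber G : ℝ) : EReal) ↔ ∃ f : V → ℝ, IsNERD G f :=
  ⟨mpr_direction, fun ⟨_, hf⟩ => mp_direction hG hf⟩

end Pool.Agent.Results.MP_24e13c_co.ChordalIff
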